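import Mathlib

/-!
The kernel `P₀` of `x, y, z ↦ t⁷, t⁸, t⁴¹` over a field `k` and its symbolic powers.

With `f₁ = xz - y⁶`, `f₂ = yz - x⁷` one has, for `j ≤ 6`, elements `D_j = z^(j+1) + x^(7-j) E_j` with
`x D_(j+1) = f₁ D_j + y^(5-j) f₂^(j+1)`, so that `x^j D_j ∈ P₀^j` and `D_j` lies in the `j`-th
symbolic power of `P₀`.
-/

open MvPolynomial

namespace Pool.Agent.Results.MP_48a29b_ag.MonomialCurve

/-- The `m`-th symbolic power `I^(m) = ⋂_{P ∈ Min I} (I^m R_P ∩ R)`. -/
noncomputable def symbolicPower {R : Type*} [CommRing R] (I : Ideal R) (m : ℕ) : Ideal R :=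
  ⨅ P : PrimeSpectrum R, ⨅ _ : P.asIdeal ∈ I.minimalPrimes,
    ((I ^ m).map (algebraMap R (Localization.AtPrime P.asIdeal))).comap
      (algebraMap R (Localization.AtPrime P.asIdeal))

lemma mem_symbolicPower_of_mul {R : Type*} [CommRing R] {P : Ideal R} [hP : P.IsPrime]
    {s f : R} {m : ℕ} (hs : s ∉ P) (h : s * f ∈ P ^ m) : f ∈ symbolicPower P m := by
  unfold symbolicPower
  simp only [Ideal.mem_iInf, Ideal.mem_comap]
  intro Q hQ
  have hQP : Q.asIdeal = P := by
    rw [Ideal.minimalPrimes_eq_subsingleton_self] at hQ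
    simpa using hQ
  have hmem : algebraMap R (Localization.AtPrime Q.asIdeal) (s * f) ∈
      (P ^ m).map (algebraMap R (Localization.AtPrime Q.asIdeal)) := Ideal.mem_map_of_mem _ h
  rw [map_mul] at hmem
  have hu : IsUnit (algebraMap R (Localization.AtPrime Q.asIdeal) s) := by
    apply IsLocalization.map_units (M := Q.asIdeal.primeCompl) _ (⟨s, ?_⟩ : Q.asIdeal.primeCompl)
    show s ∉ Q.asIdeal
    rw [hQP]; exact hs
  exact (Ideal.unit_mul_mem_iff_mem _ hu).1 hmem

section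

variable (k : Type) [Field k]

/-- The polynomial ring. -/
abbrev S : Type := MvPolynomial (Fin 3) k

/-- The parametrisation. -/
noncomputable def φ : S k →ₐ[k] Polynomial k :=
  aeval ![Polynomial.X ^ 7, Polynomial.X ^ 8, Polynomial.X ^ 41]

/-- Restriction to the last coordinate line. -/
noncomputable def ψ : S k →ₐ[k] Polynomial k :=
  aeval ![0, 0, Polynomial.X]

/-- The irrelevant maximal ideal. -/
noncomputable def M : Ideal (S k) := RingHom.ker (constantCoeff (R := k) (σ := Fin 3))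

instance : (M k).IsPrime := RingHom.ker_isPrime _

/-- The prime ideal of the monomial curve. -/
noncomputable def P₀ : Ideal (S k) := RingHom.ker (φ k)

instance : (P₀ k).IsPrime := RingHom.ker_isPrime _

variable {k}

lemma mem_M {f : S k} : f ∈ M k ↔ constantCoeff f = 0 := RingHom.mem_ker

lemma mem_P₀ {f : S k} : f ∈ P₀ k ↔ φ k f = 0 := RingHom.mem_ker

lemma φ_monomial (u : Fin 3 →₀ ℕ) (a : k) :
    φ k (monomial u a) = Polynomial.monomial (7 * u 0 + 8 * u 1 + 41 * u 2) a := by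
  unfold φ
  rw [aeval_monomial, Finsupp.prod_fintype _ _ (by simp)]
  simp only [Fin.prod_univ_three, Matrix.cons_val_zero, Matrix.cons_val_one, Matrix.cons_val]
  rw [← Polynomial.C_mul_X_pow_eq_monomial]
  simp only [← pow_mul, Polynomial.algebraMap_eq, pow_add]

lemma ψ_monomial (u : Fin 3 →₀ ℕ) (a : k) :
    ψ k (monomial u a) = if u 0 = 0 ∧ u 1 = 0 then Polynomial.monomial (u 2) a else 0 := by
  unfold ψ
  rw [aeval_monomial, Finsupp.prod_fintype _ _ (by simp)]
  simp only [Fin.prod_univ_three, Matrix.cons_val_zero, Matrix.cons_val_one, Matrix.cons_val]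
  rw [← Polynomial.C_mul_X_pow_eq_monomial]
  simp only [Polynomial.algebraMap_eq]
  by_cases h0 : u 0 = 0 <;> by_cases h1 : u 1 = 0 <;> simp [h0, h1]

lemma coeff_fortyone (f : S k) : (φ k f).coeff 41 = (ψ k f).coeff 1 := by
  induction f using MvPolynomial.induction_on' with
  | monomial u a =>
    rw [φ_monomial, ψ_monomial, Polynomial.coeff_monomial]
    by_cases h : u 0 = 0 ∧ u 1 = 0
    · rw [if_pos h, Polynomial.coeff_monomial]
      congr 1
      apply propext
      omega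
    · rw [if_neg h, Polynomial.coeff_zero, if_neg]
      intro h9
      have h2 : u 2 = 0 ∨ u 2 = 1 := by omega
      have h3 : u 1 = 0 ∨ u 1 = 1 ∨ u 1 = 2 ∨ u 1 = 3 ∨ u 1 = 4 ∨ u 1 = 5 := by omega
      rcases h3 with h3 | h3 | h3 | h3 | h3 | h3 <;> rcases h2 with h2 | h2 <;> omega
  | add p q hp hq => simp only [map_add, Polynomial.coeff_add, hp, hq]

lemma coeff_zero_φ (f : S k) : (φ k f).coeff 0 = constantCoeff f := by
  induction f using MvPolynomial.induction_on' with
  | monomial u a =>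
    rw [φ_monomial, Polynomial.coeff_monomial, constantCoeff_monomial]
    congr 1
    apply propext
    constructor
    · intro h
      ext i
      fin_cases i <;> simp <;> omega
    · rintro rfl
      simp
  | add p q hp hq => simp only [map_add, Polynomial.coeff_add, hp, hq]

lemma coeff_zero_ψ (f : S k) : (ψ k f).coeff 0 = constantCoeff f := by
  induction f using MvPolynomial.induction_on' with
  | monomial u a =>
    rw [ψ_monomial, constantCoeff_monomial]
    by_cases h : u 0 = 0 ∧ u 1 = 0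
    · rw [if_pos h, Polynomial.coeff_monomial]
      congr 1
      apply propext
      constructor
      · intro h
        ext i
        fin_cases i <;> simp <;> omega
      · rintro rfl
        simp
    · rw [if_neg h, Polynomial.coeff_zero, if_neg]
      rintro rfl
      simp at h
  | add p q hp hq => simp only [map_add, Polynomial.coeff_add, hp, hq]

lemma P₀_le_M : P₀ k ≤ M k := by
  intro f hf
  rw [mem_M, ← coeff_zero_φ, mem_P₀.1 hf, Polynomial.coeff_zero]

lemma map_M_le : (M k).map (ψ k : S k →+* Polynomial k) ≤ Ideal.span {Polynomial.X} := by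
  rw [Ideal.map_le_iff_le_comap]
  intro f hf
  rw [Ideal.mem_comap, Ideal.mem_span_singleton, Polynomial.X_dvd_iff]
  show (ψ k f).coeff 0 = 0
  rw [coeff_zero_ψ, mem_M.1 hf]

lemma map_P₀_le : (P₀ k).map (ψ k : S k →+* Polynomial k) ≤ Ideal.span {Polynomial.X ^ 2} := by
  rw [Ideal.map_le_iff_le_comap]
  intro f hf
  rw [Ideal.mem_comap, Ideal.mem_span_singleton, Polynomial.X_pow_dvd_iff]
  intro d hd
  show (ψ k f).coeff d = 0
  have : d = 0 ∨ d = 1 := by omega
  rcases this with rfl | rfl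
  · rw [coeff_zero_ψ, mem_M.1 (P₀_le_M hf)]
  · rw [← coeff_fortyone, mem_P₀.1 hf, Polynomial.coeff_zero]

variable (k)

/-- First equation of the curve. -/
noncomputable def f₁ : S k := X 0 * X 2 - X 1 ^ 6

/-- Second equation of the curve. -/
noncomputable def f₂ : S k := X 1 * X 2 - X 0 ^ 7

variable {k}

lemma x0_notMem : (X 0 : S k) ∉ P₀ k := by
  rw [mem_P₀]
  simp [φ]

lemma f₁_mem : f₁ k ∈ P₀ k := by
  rw [mem_P₀]
  simp only [φ, f₁, map_sub, map_mul, map_pow, aeval_X, Matrix.cons_val_zero, Matrix.cons_val_one,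
    Matrix.cons_val]
  ring

lemma f₂_mem : f₂ k ∈ P₀ k := by
  rw [mem_P₀]
  simp only [φ, f₂, map_sub, map_mul, map_pow, aeval_X, Matrix.cons_val_zero, Matrix.cons_val_one,
    Matrix.cons_val]
  ring

/-- The elements `D_j`, for `j ≤ 6`. -/
lemma exists_D (j : ℕ) : ∀ l : ℕ, j + l = 6 →
    ∃ E : S k, X 0 ^ j * (X 2 ^ (j + 1) + X 0 ^ (l + 1) * E) ∈ P₀ k ^ j := by
  induction j with
  | zero =>
    intro l _
    exact ⟨0, by simp⟩
  | succ j ih =>
    intro l hl
    obtain ⟨E, hE⟩ := ih (l + 1) (by omega)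
    obtain ⟨Q, hQ⟩ := sub_dvd_pow_sub_pow (f₂ k) (X 1 * X 2) (j + 1)
    have hf₂ : f₂ k - X 1 * X 2 = - X 0 ^ 7 := by unfold f₂; ring
    rw [hf₂] at hQ
    refine ⟨f₁ k * E - X 0 ^ j * X 1 ^ l * Q, ?_⟩
    have hj : l = 5 - j := by omega
    have hj5 : j ≤ 5 := by omega
    have key : (X 0 ^ (j + 1) * (X 2 ^ (j + 1 + 1) + X 0 ^ (l + 1) *
        (f₁ k * E - X 0 ^ j * X 1 ^ l * Q)) : S k) =
        f₁ k * (X 0 ^ j * (X 2 ^ (j + 1) + X 0 ^ (l + 1 + 1) * E)) +
          X 0 ^ j * X 1 ^ l * f₂ k ^ (j + 1) := by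
      have hQ' : f₂ k ^ (j + 1) = (X 1 * X 2) ^ (j + 1) - X 0 ^ 7 * Q := by
        linear_combination hQ
      rw [hQ']
      have e7 : (X 0 : S k) ^ 7 = X 0 ^ (l + 1) * X 0 ^ (j + 1) := by
        rw [← pow_add]; congr 1; omega
      have e6 : (X 1 : S k) ^ 6 = X 1 ^ l * X 1 ^ (j + 1) := by
        rw [← pow_add]; congr 1; omega
      rw [e7, f₁, e6]
      ring
    rw [key, pow_succ' (P₀ k)]
    refine add_mem (Ideal.mul_mem_mul f₁_mem hE) ?_
    refine Ideal.mul_mem_left _ _ ?_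
    rw [← pow_succ']
    exact Ideal.pow_mem_pow f₂_mem _

variable (k) in
lemma exists_G : ∃ G H : S k, ψ k G = Polynomial.X ^ 7 ∧ X 0 ^ 6 * G ∈ P₀ k ^ 6 ∧
    ψ k H = Polynomial.X ^ 4 ∧ X 0 ^ 6 * H ∈ P₀ k ^ 3 := by
  obtain ⟨E, hE⟩ := exists_D (k := k) 6 0 rfl
  obtain ⟨E', hE'⟩ := exists_D (k := k) 3 3 rfl
  refine ⟨X 2 ^ (6 + 1) + X 0 ^ (0 + 1) * E, X 2 ^ (3 + 1) + X 0 ^ (3 + 1) * E', ?_, hE, ?_, ?_⟩
  · simp [ψ]
  · simp [ψ]
  · have h1 := Ideal.mul_mem_left (P₀ k ^ 3) (X 0 ^ 3 : S k) hE'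
    rw [← mul_assoc, ← pow_add] at h1
    exact h1

/-- The element `G` of the sixth symbolic power. -/
noncomputable def G (k : Type) [Field k] : S k := (exists_G k).choose

/-- The element `H` of the third symbolic power. -/
noncomputable def H (k : Type) [Field k] : S k := (exists_G k).choose_spec.choose

lemma ψ_G : ψ k (G k) = Polynomial.X ^ 7 := (exists_G k).choose_spec.choose_spec.1

lemma G_mem' : X 0 ^ 6 * G k ∈ P₀ k ^ 6 := (exists_G k).choose_spec.choose_spec.2.1

lemma ψ_H : ψ k (H k) = Polynomial.X ^ 4 := (exists_G k).choose_spec.choose_spec.2.2.1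

lemma H_mem' : X 0 ^ 6 * H k ∈ P₀ k ^ 3 := (exists_G k).choose_spec.choose_spec.2.2.2

lemma G_mem (q s : ℕ) :
    ((X 0 ^ 6) ^ (q + s) * (G k ^ q * H k ^ s) : S k) ∈ P₀ k ^ (6 * q + 3 * s) := by
  have e : ((X 0 ^ 6) ^ (q + s) * (G k ^ q * H k ^ s) : S k) =
      (X 0 ^ 6 * G k) ^ q * (X 0 ^ 6 * H k) ^ s := by
    rw [mul_pow _ (G k), mul_pow _ (H k), pow_add]; ring
  rw [e, pow_add, pow_mul, pow_mul]
  exact Ideal.mul_mem_mul (Ideal.pow_mem_pow G_mem' q) (Ideal.pow_mem_pow H_mem' s)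

variable (k)

/-- The regular local ring. -/
abbrev R : Type := Localization.AtPrime (M k)

/-- The prime of the monomial curve in the local ring. -/
noncomputable def P : Ideal (R k) := (P₀ k).map (algebraMap (S k) (R k))

variable {k}

lemma disj : Disjoint ((M k).primeCompl : Set (S k)) (P₀ k : Set (S k)) := by
  rw [Set.disjoint_left]
  intro x hx hx'
  exact hx (P₀_le_M hx')

instance : (P k).IsPrime :=
  IsLocalization.isPrime_of_isPrime_disjoint (M k).primeCompl (R k) (P₀ k) inferInstance disj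

lemma maximalIdeal_eq :
    IsLocalRing.maximalIdeal (R k) = (M k).map (algebraMap (S k) (R k)) :=
  (Localization.AtPrime.map_eq_maximalIdeal (I := M k)).symm

lemma not_mem_P : algebraMap (S k) (R k) (X 0 ^ 6 : S k) ∉ P k := by
  intro hmem
  rw [P, IsLocalization.algebraMap_mem_map_algebraMap_iff (M k).primeCompl] at hmem
  obtain ⟨m, hm, hmx⟩ := hmem
  rcases (inferInstance : (P₀ k).IsPrime).mem_or_mem hmx with h1 | h1
  · exact hm (P₀_le_M h1)
  · exact x0_notMem ((inferInstance : (P₀ k).IsPrime).mem_of_pow_mem _ h1)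

lemma G_mem_symbolic (q s : ℕ) :
    algebraMap (S k) (R k) (G k ^ q * H k ^ s) ∈ symbolicPower (P k) (6 * q + 3 * s) := by
  apply mem_symbolicPower_of_mul (s := algebraMap (S k) (R k) ((X 0 ^ 6 : S k) ^ (q + s)))
  · rw [map_pow]
    intro hh
    exact not_mem_P ((inferInstance : (P k).IsPrime).mem_of_pow_mem _ hh)
  · rw [← map_mul, P, ← Ideal.map_pow]
    exact Ideal.mem_map_of_mem _ (G_mem q s)

lemma G_notMem {a r q s : ℕ} (hj : 7 * q + 4 * s < a + 2 * r) :
    algebraMap (S k) (R k) (G k ^ q * H k ^ s) ∉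
      IsLocalRing.maximalIdeal (R k) ^ a * P k ^ r := by
  intro hmem
  rw [maximalIdeal_eq, P, ← Ideal.map_pow, ← Ideal.map_pow, ← Ideal.map_mul,
    IsLocalization.algebraMap_mem_map_algebraMap_iff (M k).primeCompl] at hmem
  obtain ⟨v, hv, hsh⟩ := hmem
  have h1 := Ideal.mem_map_of_mem (ψ k : S k →+* Polynomial k) hsh
  rw [Ideal.map_mul, Ideal.map_pow, Ideal.map_pow] at h1
  have h2 := Ideal.mul_mono (Ideal.pow_right_mono map_M_le a) (Ideal.pow_right_mono map_P₀_le r) h1
  rw [Ideal.span_singleton_pow, Ideal.span_singleton_pow, Ideal.span_singleton_mul_span_singleton,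
    ← pow_mul, ← pow_add, Ideal.mem_span_singleton] at h2
  have h3 : (ψ k : S k →+* Polynomial k) (v * (G k ^ q * H k ^ s)) =
      ψ k v * Polynomial.X ^ (7 * q + 4 * s) := by
    show ψ k (v * (G k ^ q * H k ^ s)) = _
    rw [map_mul, map_mul, map_pow, map_pow, ψ_G, ψ_H, ← pow_mul, ← pow_mul, ← pow_add]
  rw [h3, Polynomial.X_pow_dvd_iff] at h2
  have h4 := h2 (7 * q + 4 * s) hj
  rw [Polynomial.coeff_mul_X_pow', if_pos le_rfl, Nat.sub_self, coeff_zero_ψ] at h4
  exact hv (mem_M.2 h4)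

/-- The main non-containment. -/
lemma not_le {r : ℕ} (hr : 2 ≤ r) :
    ¬ symbolicPower (P k) (r * 3) ≤ IsLocalRing.maximalIdeal (R k) ^ (r * 3 - r) * P k ^ r := by
  intro hle
  have e : r * 3 = 6 * (r / 2) + 3 * (r % 2) := by omega
  have hj : 7 * (r / 2) + 4 * (r % 2) < (r * 3 - r) + 2 * r := by omega
  have h1 := G_mem_symbolic (k := k) (r / 2) (r % 2)
  rw [← e] at h1
  exact G_notMem hj (hle h1)

/-! ### Heights -/

variable (k)

/-- Auxiliary parametrisation. -/
noncomputable def φ₁ : S k →ₐ[k] MvPolynomial (Fin 2) k :=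
  aeval ![X 0 ^ 7, X 0 ^ 8, X 1]

/-- The kernel of the auxiliary parametrisation. -/
noncomputable def P₁ : Ideal (S k) := RingHom.ker (φ₁ k)

instance : (P₁ k).IsPrime := RingHom.ker_isPrime _

variable {k}

lemma P₁_le_P₀ : P₁ k ≤ P₀ k := by
  have key : φ k = (aeval ![Polynomial.X, Polynomial.X ^ 41] :
      MvPolynomial (Fin 2) k →ₐ[k] Polynomial k).comp (φ₁ k) := by
    apply MvPolynomial.algHom_ext
    intro i
    fin_cases i <;> simp [φ, φ₁]
  intro f hf
  rw [P₀, RingHom.mem_ker, key]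
  rw [P₁, RingHom.mem_ker] at hf
  simp [hf]

lemma bot_lt_P₁ : (⊥ : Ideal (S k)) < P₁ k := by
  rw [bot_lt_iff_ne_bot]
  intro hbot
  have h1 : (X 1 ^ 7 - X 0 ^ 8 : S k) ∈ P₁ k := by
    rw [P₁, RingHom.mem_ker]
    simp only [φ₁, map_sub, map_pow, aeval_X, Matrix.cons_val_zero, Matrix.cons_val_one]
    ring
  rw [hbot, Ideal.mem_bot] at h1
  have h2 := congrArg (eval ![0, 1, 0]) h1
  simp at h2

lemma P₁_lt_P₀ : P₁ k < P₀ k := by
  refine lt_of_le_of_ne P₁_le_P₀ ?_
  intro heq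
  have h1 := f₁_mem (k := k)
  rw [← heq, P₁, RingHom.mem_ker] at h1
  have h2 := congrArg (eval ![1, 0]) h1
  simp [φ₁, f₁] at h2

lemma P₀_lt_M : P₀ k < M k := by
  refine lt_of_le_of_ne P₀_le_M ?_
  intro heq
  apply x0_notMem (k := k)
  rw [heq, mem_M]
  simp

lemma height_M_le : (M k).height ≤ 3 := by
  have h1 := Ideal.height_le_ringKrullDim_of_isPrime (I := M k)
  have h2 : ringKrullDim (S k) = ((3 : ℕ∞) : WithBot ℕ∞) := by
    rw [MvPolynomial.ringKrullDim_of_isNoetherianRing]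
    simp
  rw [h2] at h1
  exact WithBot.coe_le_coe.1 h1

lemma height_M : (M k).height = 3 := by
  apply le_antisymm height_M_le
  have h1 := Ideal.height_add_one_le_of_lt_of_isPrime (bot_lt_P₁ (k := k))
  have h2 := Ideal.height_add_one_le_of_lt_of_isPrime (P₁_lt_P₀ (k := k))
  have h3 := Ideal.height_add_one_le_of_lt_of_isPrime (P₀_lt_M (k := k))
  calc (3 : ℕ∞) = 0 + 1 + 1 + 1 := by norm_num
    _ ≤ (⊥ : Ideal (S k)).height + 1 + 1 + 1 := by gcongr; exact bot_le
    _ ≤ (P₁ k).height + 1 + 1 := by gcongr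
    _ ≤ (P₀ k).height + 1 := by gcongr
    _ ≤ (M k).height := h3

lemma ringKrullDim_R : ringKrullDim (R k) = 3 := by
  rw [IsLocalization.AtPrime.ringKrullDim_eq_height (M k), height_M]
  rfl

end


open IsLocalRing in
/-- Over every field `k` there is a three-dimensional regular local `k`-algebra with a nonzero prime
ideal `P` such that `P^(3r) ⊄ 𝔪^(3r-r) P^r` for all `r ≥ 2`. -/
theorem result (k : Type) [Field k] :
    ∃ (R : Type) (_ : CommRing R) (_ : Algebra k R) (_ : IsRegularLocalRing R),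
      ringKrullDim R = 3 ∧ ∃ P : Ideal R, P.IsPrime ∧ P ≠ ⊥ ∧
        ∀ r : ℕ, 2 ≤ r →
          ¬ symbolicPower P (r * 3) ≤ maximalIdeal R ^ (r * 3 - r) * P ^ r := by
  refine ⟨R k, inferInstance, inferInstance, inferInstance, ringKrullDim_R, P k, inferInstance,
    ?_, fun r hr => not_le hr⟩
  intro h0
  have h1 : algebraMap (S k) (R k) (f₁ k) ∈ P k := Ideal.mem_map_of_mem _ f₁_mem
  rw [h0, Ideal.mem_bot] at h1
  have h2 : f₁ k = 0 := by
    apply IsLocalization.injective (R k) (Ideal.primeCompl_le_nonZeroDivisors (M k))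
    rw [h1, map_zero]
  have h3 := congrArg (eval ![0, 1, 0]) h2
  simp [f₁] at h3

end Pool.Agent.Results.MP_48a29b_ag.MonomialCurve
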